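import Mathlib
import Pool.Agent.H49.Mo2

set_option autoImplicit false

namespace Pool.Agent.Results.MP_fd3312_co.Upper

open Finset Pool.Agent.H49.Mo

/-- The point of `{1,2,3}^d` with the given digits. -/
def pt {d : ℕ} (x : Fin d → Fin 3) : Fin d → ℝ := fun i => ((x i : ℕ) : ℝ) + 1

/-- Least number of colours with no monochromatic collinear triple. -/
noncomputable def f (d : ℕ) : ℕ := sInf {m | ∃ c : (Fin d → Fin 3) → Fin m,
  ∀ T : Finset (Fin d → Fin 3), T.card = 3 → Collinear ℝ (pt '' (T : Set (Fin d → Fin 3))) →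
    ¬ ∀ x ∈ T, ∀ y ∈ T, c x = c y}

theorem result : ∃ C : ℝ, ∀ d : ℕ, 2 ≤ d → (f d : ℝ) ≤ C * d / Real.log d := by
  refine ⟨32 + 32 * 2 ^ 26, fun d hd => ?_⟩
  obtain ⟨s, s1, s2⟩ := root d
  have s0 : 1 ≤ s := by
    by_contra h
    obtain rfl : s = 0 := by omega
    omega
  obtain ⟨p, pp, p1, p2⟩ := Nat.exists_prime_lt_and_le_two_mul (s + 2) (by omega)
  haveI := Fact.mk pp
  have l1 : 2 ^ Nat.log 2 d ≤ d := Nat.pow_log_le_self 2 (by omega)
  have l2 : d < 2 ^ (Nat.log 2 d + 1) := Nat.lt_pow_succ_log_self (by norm_num) d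
  generalize Nat.log 2 d = L at l1 l2
  obtain ⟨φ, f1, f2⟩ := colour 3 d (L / 32 + 1) p le_rfl (by omega)
    (s2.le.trans (Nat.pow_le_pow_left (by omega) 8)) (by omega)
  have a1 : 2 ^ (L / 32 * 8) ≤ (s + 1) ^ 2 := by
    refine (lt_of_pow_lt_pow_left₀ 4 (Nat.zero_le _) ?_).le
    rw [← pow_mul, ← pow_mul]
    exact ((Nat.pow_le_pow_right (by norm_num) (by omega)).trans l1).trans_lt s2
  have a2 : L < 8 * s := by
    have h1 : s + 1 ≤ 2 ^ s := Nat.lt_two_pow_self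
    have h2 := (l1.trans_lt s2).trans_le (Nat.pow_le_pow_left h1 8)
    rw [← pow_mul] at h2
    have := (Nat.pow_lt_pow_iff_right (by norm_num)).1 h2
    omega
  generalize hR : L / 32 + 1 = R at f1 f2
  have a3 : (3 - 1) ^ (R * 8) ≤ 256 * (2 * s) ^ 2 := by
    rw [← hR, add_mul, pow_add, mul_comm 256]
    exact Nat.mul_le_mul (a1.trans (Nat.pow_le_pow_left (by omega) 2)) (by norm_num)
  have a4 : R * 8 * p ^ 2 + 1 ≤ R * 9 * (6 * s) ^ 2 := by
    have h1 : p ^ 2 ≤ (6 * s) ^ 2 := Nat.pow_le_pow_left (by omega) 2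
    have h2 : 1 ≤ R * (6 * s) ^ 2 := Nat.mul_pos (by omega) (by positivity)
    nlinarith
  obtain ⟨K, hK, f3⟩ : ∃ K, R * K ≤ 2 ^ 26 * d ∧ ∀ x, φ x < K := by
    refine ⟨_, ?_, f1⟩
    have h0 : s ≤ s ^ 2 := Nat.le_self_pow (by norm_num) s
    have h1 : R ≤ 8 * s ^ 2 := by omega
    calc _ ≤ R * (256 * (2 * s) ^ 2 * (R * 9 * (6 * s) ^ 2)) :=
          Nat.mul_le_mul_left _ (Nat.mul_le_mul a3 a4)
      _ = 331776 * (R * R) * s ^ 4 := by ring
      _ ≤ 331776 * (8 * s ^ 2 * (8 * s ^ 2)) * s ^ 4 := by gcongr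
      _ = 21233664 * s ^ 8 := by ring
      _ ≤ _ := Nat.mul_le_mul (by norm_num) s1
  have hf : f d ≤ d / R + K := by
    have e1 : ∀ x : Fin d → Fin 3, ex x / R ≤ d / R := fun x =>
      Nat.div_le_div_right ((card_filter_le _ _).trans (by simp))
    refine Nat.sInf_le ⟨fun x => ⟨ex x / R + φ x, by have := e1 x; have := f3 x; omega⟩,
      fun T hT hc hm => ?_⟩
    obtain ⟨q, v, hv⟩ := (collinear_iff_exists_forall_eq_smul_vadd _).1 hc
    obtain ⟨x, hx, y, hy, z, hz, w, i0, h0, hw⟩ := line le_rfl T hT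
      ((collinear_iff_exists_forall_eq_smul_vadd _).2 ⟨q - 1, v, by
        rintro _ ⟨x, hx, rfl⟩
        obtain ⟨r, hr⟩ := hv _ ⟨x, hx, rfl⟩
        refine ⟨r, funext fun i => ?_⟩
        have := congrFun hr i
        simp only [pt, vadd_eq_add, Pi.add_apply, Pi.smul_apply, Pi.sub_apply, Pi.one_apply]
          at this ⊢
        linarith⟩)
    exact f2 x y z w i0 h0 hw (congrArg Fin.val (hm x hx y hy)) (congrArg Fin.val (hm x hx z hz))
  have d2 : (2 : ℝ) ≤ d := by exact_mod_cast hd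
  have b1 : Real.log d ≤ 32 * R := by
    have h1 : (d : ℝ) ≤ 2 ^ (32 * R) := by
      exact_mod_cast l2.le.trans (Nat.pow_le_pow_right (by norm_num) (by omega))
    have h2 := Real.log_le_log (by linarith) h1
    have h3 := Real.log_two_lt_d9
    rw [Real.log_pow] at h2
    have : (0 : ℝ) ≤ R := Nat.cast_nonneg _
    push_cast at h2
    nlinarith
  have b2 : R * f d ≤ d + 2 ^ 26 * d := by
    have := Nat.mul_le_mul_left R hf
    have := Nat.mul_div_le d R
    rw [mul_add] at *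
    omega
  have b3 : (R : ℝ) * f d ≤ d + 2 ^ 26 * d := by exact_mod_cast b2
  rw [le_div_iff₀ (Real.log_pos (by linarith))]
  have := mul_le_mul_of_nonneg_left b1 (Nat.cast_nonneg (α := ℝ) (f d))
  nlinarith

end Pool.Agent.Results.MP_fd3312_co.Upper
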